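import Pool.Agent.Lib.MP_395ab6_co.Log

/-! The permanent inequality fails by a factor of order `log n`, already in rank two. -/

namespace Pool.Agent.Variants.MP_395ab6_co.LogGrowth

open Pool.Agent.Lib.MP_395ab6_co
open scoped ComplexOrder

theorem result (n : ℕ) (hn : 1 ≤ n) : ∃ A : Matrix (Fin (n + 1)) (Fin (n + 1)) ℂ,
    A.PosSemidef ∧ A.rank ≤ 2 ∧ 0 < A.permanent.re ∧
    Real.log (n + 1) / 70 * A.permanent.re <
      ∑ k ∈ (Finset.univ : Finset (Fin (n + 1))).erase 0,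
        ‖A 0 k‖ ^ 2 * (A.submatrix (fun j : {j : Fin (n + 1) // j ≠ 0 ∧ j ≠ k} => j.1)
          (fun j : {j : Fin (n + 1) // j ≠ 0 ∧ j ≠ k} => j.1)).permanent.re := by
  obtain ⟨N, h1, h2, h3, h4⟩ : ∃ N : ℕ, 1 ≤ N ∧ 2 ^ N ≤ n + 1 ∧ 2 * 2 ^ N ≤ n + 4 ∧
      n + 1 ≤ 2 ^ (N + 2) := by
    by_cases h : n < 7
    · exact ⟨1, le_rfl, by omega, by omega, by omega⟩
    · have h5 := Nat.pow_log_le_self 2 (show n + 1 ≠ 0 by omega)
      have h6 := Nat.lt_pow_succ_log_self (b := 2) (by norm_num) (n + 1)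
      have h7 : 3 ≤ Nat.log 2 (n + 1) := Nat.le_log_of_pow_le (by norm_num) (by omega)
      obtain ⟨N, hN⟩ : ∃ N, Nat.log 2 (n + 1) = N + 1 := ⟨_, (Nat.sub_add_cancel (by omega)).symm⟩
      rw [hN] at h5 h6 h7
      rw [pow_succ] at h5
      exact ⟨N, by omega, by omega, by omega, h6.le⟩
  obtain ⟨a, b, h0, h⟩ := rings n N hn h1 h2 h3
  refine ⟨gram a b, gram_psd a b, gram_rank a b, h0, lt_of_le_of_lt ?_ h⟩
  refine mul_le_mul_of_nonneg_right ?_ h0.le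
  have h5 : Real.log (n + 1) ≤ (N + 2) * Real.log 2 := by
    have h6 : ((n : ℝ) + 1) ≤ 2 ^ (N + 2) := by exact_mod_cast h4
    have := Real.log_le_log (by positivity) h6
    rwa [Real.log_pow, Nat.cast_add, Nat.cast_ofNat] at this
  have h7 := Real.log_two_lt_d9
  have h8 : (1 : ℝ) ≤ N := by exact_mod_cast h1
  nlinarith

end Pool.Agent.Variants.MP_395ab6_co.LogGrowth
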